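import Mathlib
import Pool.Agent.H94.SL7

set_option autoImplicit false

namespace Pool.Agent.Results.MP_35e7b7_an.ShareAll

open Set Filter Topology OnePoint Polynomial Pool.Agent.H94.SL

open Classical in
/-- The sphere-valued function: the value where `f` is analytic, `∞` at the poles. -/
noncomputable def hat (f : ℂ → ℂ) (z : ℂ) : OnePoint ℂ :=
  if AnalyticAt ℂ f z then ((f z : ℂ) : OnePoint ℂ) else ∞

/-- `c` is a shared limit value of `f` and `g`. -/
def Shared (f g : ℂ → ℂ) (c : OnePoint ℂ) : Prop :=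
  ∀ z : ℕ → ℂ, Tendsto (fun n => ‖z n‖) atTop atTop →
    (Tendsto (fun n => hat f (z n)) atTop (𝓝 c) ↔ Tendsto (fun n => hat g (z n)) atTop (𝓝 c))

/-- `f` is a rational function. -/
def IsRational (f : ℂ → ℂ) : Prop :=
  ∃ P Q : ℂ[X], Q ≠ 0 ∧ ∀ z, Q.eval z ≠ 0 → f z = P.eval z / Q.eval z

open Classical in
lemma hat_deriv {f : ℂ → ℂ} (hm : Mer f) (z : ℂ) :
    hat (deriv f) z = if AnalyticAt ℂ f z then ((deriv f z : ℂ) : OnePoint ℂ) else ∞ := by
  simp only [hat, an_iff hm]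

lemma shi {f : ℂ → ℂ} (hm : Mer f) {v : ℂ} (h : Shared f (deriv f) ↑v) : ShI f v := by
  refine ⟨seq_ed _ _ _ v fun z h1 h2 h3 => ?_, seq_ed _ _ _ v fun z h1 h2 h3 => ?_⟩
  · have := (h z h1).1 ((tend_coe (fun n => AnalyticAt ℂ f (z n)) (fun n => f (z n)) v).2
      ⟨.of_forall h2, h3⟩)
    simp only [hat_deriv hm] at this
    exact ((tend_coe _ _ v).1 this).2
  · have := (h z h1).2 (by
      simp only [hat_deriv hm]
      exact (tend_coe (fun n => AnalyticAt ℂ f (z n)) (fun n => deriv f (z n)) v).2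
        ⟨.of_forall h2, h3⟩)
    exact ((tend_coe (fun n => AnalyticAt ℂ f (z n)) (fun n => f (z n)) v).1 this).2

lemma main {f : ℂ → ℂ} (hf : MeromorphicNFOn f univ) (ht : ¬IsRational f) {a b : ℂ} (hab : a ≠ b)
    (hb0 : b ≠ 0) (ha : Shared f (deriv f) ↑a) (hb : Shared f (deriv f) ↑b) (c : OnePoint ℂ) :
    Shared f (deriv f) c := by
  by_cases hc : c = ↑b
  · exact hc ▸ hb
  have hm := mer hf
  have S := sym hm (shi hm ha) (shi hm hb) hb0 hab (near_ex hf.meromorphicOn hm ht)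
  intro z hz
  simp only [hat_deriv hm]
  refine ⟨tr (fun n => AnalyticAt ℂ f (z n)) (fun n => f (z n)) _ (fun η hη ε hε => ?_) c hc,
    tr (fun n => AnalyticAt ℂ f (z n)) _ (fun n => f (z n)) (fun η hη ε hε => ?_) c hc⟩
  · obtain ⟨ρ, h⟩ := S η hη ε hε
    exact (hz.eventually_gt_atTop ρ).mono fun n h1 h2 h3 => h _ h1 h2 (Or.inl h3)
  · obtain ⟨ρ, h⟩ := S η hη ε hε
    refine (hz.eventually_gt_atTop ρ).mono fun n h1 h2 h3 => ?_
    obtain ⟨k1, k2, k3⟩ := h _ h1 h2 (Or.inr h3)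
    exact ⟨k2, k1, by rwa [norm_sub_rev]⟩

theorem result (f : ℂ → ℂ) (hf : MeromorphicNFOn f univ) (ht : ¬IsRational f) (a b : ℂ)
    (hab : a ≠ b) (ha : Shared f (deriv f) ↑a) (hb : Shared f (deriv f) ↑b) (c : OnePoint ℂ) :
    Shared f (deriv f) c := by
  by_cases hb0 : b = 0
  · exact main hf ht hab.symm (hb0 ▸ hab) hb ha c
  · exact main hf ht hab hb0 ha hb c

end Pool.Agent.Results.MP_35e7b7_an.ShareAll
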